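import Mathlib

set_option autoImplicit false

open IsLocalRing

namespace Pool.Agent.Lib.MP_86e60f_al

/-- The depth of a module `N` over a local ring `A`: the supremum of the lengths of the
`N`-regular sequences contained in the maximal ideal. -/
noncomputable def depth (A : Type) [CommRing A] [IsLocalRing A]
    (N : Type) [AddCommGroup N] [Module A N] : ℕ∞ :=
  ⨆ rs ∈ {rs : List A | (∀ r ∈ rs, r ∈ maximalIdeal A) ∧ RingTheory.Sequence.IsRegular N rs},
    (rs.length : ℕ∞)

/-- The codimension of a module: the infimum of the heights of the primes in its support. -/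
noncomputable def cod (A : Type) [CommRing A] (N : Type) [AddCommGroup N] [Module A N] : ℕ∞ :=
  ⨅ p ∈ Module.support A N, p.asIdeal.height

/-- `N` is Cohen-Macaulay of codimension `t`: nonzero, depth equal to the Krull dimension of
the support, and codimension `t`. -/
def IsCMOfCodim (A : Type) [CommRing A] [IsLocalRing A]
    (N : Type) [AddCommGroup N] [Module A N] (t : ℕ) : Prop :=
  Nontrivial N ∧ ((depth A N : ℕ∞) : WithBot ℕ∞) = Module.supportDim A N ∧ cod A N = t

/-- `R` is a local hypersurface: `R ≅ S / (f)` with `S` a regular local ring and `f` an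
`S`-regular element of the square of the maximal ideal of `S`. -/
def IsLocalHypersurface (R : Type) [CommRing R] : Prop :=
  ∃ (S : Type) (_ : CommRing S) (_ : IsRegularLocalRing S) (f : S),
    f ∈ maximalIdeal S ^ 2 ∧ RingTheory.Sequence.IsRegular S [f] ∧
      Nonempty (R ≃+* (S ⧸ Ideal.span {f}))

end Pool.Agent.Lib.MP_86e60f_al
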