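import Mathlib

set_option autoImplicit false

open CategoryTheory Abelian RingTheory.Sequence IsLocalRing

namespace Pool.Agent.Lib.MP_86e60f_al

section Rees

variable {R : Type} [CommRing R]

lemma ext_smul_eq_zero {N L : ModuleCat.{0} R} {r : R} (hr : r ∈ Module.annihilator R N)
    {n : ℕ} (e : Ext N L n) : e.comp (Ext.mk₀ (L.smulShortComplex r).f) (add_zero n) = 0 := by
  have h := Ext.postcomp_smul_id_eq_zero_of_mem_annihilator (M := L) hr n
  have h2 := congrArg (fun g => g.hom e) h
  exact h2

/-- Rees lemma, with the isomorphism. -/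
lemma rees (N : ModuleCat.{0} R) (rs : List R) (hrs : ∀ r ∈ rs, r ∈ Module.annihilator R N) :
    ∀ L : ModuleCat.{0} R, IsWeaklyRegular L rs →
      (∀ i < rs.length, Subsingleton (Ext N L i)) ∧
      Nonempty (Ext N L rs.length ≃ₗ[R]
        (N →ₗ[R] (L ⧸ (Ideal.ofList rs • ⊤ : Submodule R L)))) := by
  induction rs with
  | nil =>
    intro L _
    refine ⟨by simp, ⟨?_⟩⟩
    have h0 : (Ideal.ofList ([] : List R) • ⊤ : Submodule R L) = ⊥ := by
      rw [Ideal.ofList_nil, Submodule.bot_smul]
    exact (Ext.linearEquiv₀ (R := R)).trans (ModuleCat.homLinearEquiv.trans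
      (LinearEquiv.congrRight (Submodule.quotEquivOfEqBot _ h0).symm))
  | cons r rs ih =>
    intro L hreg
    rw [isWeaklyRegular_cons_iff] at hreg
    have hr : r ∈ Module.annihilator R N := hrs r List.mem_cons_self
    obtain ⟨h1, ⟨e⟩⟩ := ih (fun s hs => hrs s (List.mem_cons_of_mem _ hs))
      (ModuleCat.of R (QuotSMulTop r L)) hreg.2
    have hS := hreg.1.smulShortComplex_shortExact
    have hvan : ∀ i < (r :: rs).length, Subsingleton (Ext N L i) := by
      intro i hi
      match i with
      | 0 =>
        have : Subsingleton (N →ₗ[R] L) :=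
          IsSMulRegular.linearMap_subsingleton_of_mem_annihilator hreg.1 hr
        exact (Ext.addEquiv₀.trans ModuleCat.homAddEquiv).subsingleton
      | i + 1 =>
        refine subsingleton_of_forall_eq 0 fun x => ?_
        obtain ⟨y, hy⟩ := Ext.covariant_sequence_exact₁ N hS x (ext_smul_eq_zero hr x) (n₀ := i) rfl
        have hs : Subsingleton (Ext N (L.smulShortComplex r).X₃ i) :=
          h1 i (by simpa using hi)
        rw [← hy, Subsingleton.elim y 0, Ext.zero_comp]
        rfl
    refine ⟨hvan, ⟨?_⟩⟩
    let δ : Ext N (L.smulShortComplex r).X₃ rs.length →ₗ[R]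
        Ext N (L.smulShortComplex r).X₁ (rs.length + 1) :=
      Ext.postcompOfLinear hS.extClass R N rfl
    have hδ : Function.Bijective δ := by
      constructor
      · rw [injective_iff_map_eq_zero]
        intro x hx
        obtain ⟨y, hy⟩ := Ext.covariant_sequence_exact₃ N hS x rfl hx
        have hs : Subsingleton (Ext N (L.smulShortComplex r).X₂ rs.length) :=
          hvan rs.length (by simp)
        rw [← hy, Subsingleton.elim y 0, Ext.zero_comp]
      · intro x
        exact Ext.covariant_sequence_exact₁ N hS x (ext_smul_eq_zero hr x) rfl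
    exact ((LinearEquiv.ofBijective δ hδ).symm.trans e).trans
      (LinearEquiv.congrRight
        (Submodule.quotOfListConsSMulTopEquivQuotSMulTopInner L r rs).symm)

end Rees

section Periodic

variable {R : Type} [CommRing R]

/-- A module that is its own first syzygy and is not projective has infinite projective
dimension. -/
lemma not_lt_of_periodic {U F : Type} [AddCommGroup U] [Module R U] [AddCommGroup F] [Module R F]
    [Module.Projective R F] (g : F →ₗ[R] U) (hg : Function.Surjective g)
    (e : LinearMap.ker g ≃ₗ[R] U) (hU : ¬ Module.Projective R U) (n : ℕ) :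
    ¬ HasProjectiveDimensionLT (ModuleCat.of R U) (n + 1) := by
  induction n with
  | zero =>
    intro h
    have : Projective (ModuleCat.of R U) := projective_iff_hasProjectiveDimensionLT_one.mpr h
    exact hU ((IsProjective.iff_projective U).mpr this)
  | succ n ih =>
    intro h
    have hS := LinearMap.shortExact_shortComplexKer hg
    have hP : Projective g.shortComplexKer.X₂ :=
      (IsProjective.iff_projective F).mp inferInstance
    have h2 := (hS.hasProjectiveDimensionLT_X₃_iff n hP).mp h
    exact ih (hasProjectiveDimensionLT_of_iso e.toModuleIso (n + 1))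

lemma not_lt_of_syzygy {U F : Type} [AddCommGroup U] [Module R U] [AddCommGroup F] [Module R F]
    [Module.Projective R F] (g : F →ₗ[R] U) (hg : Function.Surjective g)
    (h : ∀ n, ¬ HasProjectiveDimensionLT (ModuleCat.of R (LinearMap.ker g)) (n + 1)) (n : ℕ) :
    ¬ HasProjectiveDimensionLT (ModuleCat.of R U) (n + 1) := by
  intro h1
  have hS := LinearMap.shortExact_shortComplexKer hg
  have hP : Projective g.shortComplexKer.X₂ :=
    (IsProjective.iff_projective F).mp inferInstance
  have h3 : HasProjectiveDimensionLT (ModuleCat.of R U) (n + 2) :=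
    hasProjectiveDimensionLT_of_ge _ (n + 1) (n + 2) (by omega)
  exact h n ((hS.hasProjectiveDimensionLT_X₃_iff n hP).mp h3)

lemma pd_eq_top_of {X : ModuleCat.{0} R} (h : ∀ n, ¬ HasProjectiveDimensionLT X (n + 1)) :
    projectiveDimension X = ⊤ := by
  by_contra hne
  obtain ⟨n, hn⟩ := (projectiveDimension_ne_top_iff X).mp hne
  exact h n hn

/-- The matrix factorisation of `x y - z ^ 2`. -/
def mf (x y z : R) : (R × R) →ₗ[R] (R × R) where
  toFun p := (z * p.1 + y * p.2, -(x * p.1 + z * p.2))
  map_add' p q := by ext <;> simp <;> ring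
  map_smul' c p := by ext <;> simp <;> ring

/-- Over a local domain with `x y = z ^ 2`, `z ≠ 0`, and with the exactness property of the
matrix factorisation, `R / (x, z)` has infinite projective dimension. -/
lemma pd_quot_eq_top [IsLocalRing R] [IsDomain R] [IsNoetherianRing R] (x y z : R)
    (hx : x ∈ maximalIdeal R) (hy : y ∈ maximalIdeal R) (hz : z ∈ maximalIdeal R)
    (hz0 : z ≠ 0) (hrel : x * y = z ^ 2)
    (hex : ∀ a b : R, x * a + z * b = 0 → ∃ s t : R, a = z * s + y * t ∧ b = -(x * s + z * t)) :
    projectiveDimension (ModuleCat.of R (R ⧸ Ideal.ofList [x, z])) = ⊤ := by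
  set φ := mf x y z with hφ
  have hker : LinearMap.ker φ = LinearMap.range φ := by
    ext ⟨a, b⟩
    simp only [LinearMap.mem_ker, LinearMap.mem_range, hφ, mf, LinearMap.coe_mk, AddHom.coe_mk,
      Prod.mk_eq_zero, neg_eq_zero, Prod.mk.injEq, Prod.exists]
    constructor
    · rintro ⟨_, h2⟩
      obtain ⟨s, t, rfl, rfl⟩ := hex a b h2
      exact ⟨s, t, rfl, rfl⟩
    · rintro ⟨s, t, rfl, rfl⟩
      constructor
      · linear_combination (-s) * hrel
      · linear_combination t * hrel
  have hnp : ¬ Module.Projective R (LinearMap.range φ) := by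
    intro hp
    -- the surjection onto the range splits, so the kernel (equal to the range) is a summand
    obtain ⟨σ, hσ⟩ := Module.projective_lifting_property φ.rangeRestrict LinearMap.id
      φ.surjective_rangeRestrict
    let e : (R × R) →ₗ[R] (R × R) := LinearMap.id - σ ∘ₗ φ.rangeRestrict
    have he1 : ∀ p, e p ∈ LinearMap.range φ := by
      intro p
      rw [← hker, LinearMap.mem_ker]
      have := congrArg (fun g => (g (φ.rangeRestrict p) : R × R)) hσ
      simp only [LinearMap.coe_comp, Function.comp_apply, LinearMap.id_coe, id_eq] at this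
      simp only [e, LinearMap.sub_apply, LinearMap.id_coe, id_eq, LinearMap.coe_comp,
        Function.comp_apply, map_sub]
      rw [sub_eq_zero]
      exact this.symm
    have he2 : ∀ p ∈ LinearMap.range φ, e p = p := by
      intro p hp
      rw [← hker, LinearMap.mem_ker] at hp
      have : φ.rangeRestrict p = 0 := Subtype.ext hp
      simp [e, this]
    have hle : LinearMap.range φ ≤ maximalIdeal R • LinearMap.range φ := by
      rintro _ ⟨⟨s, t⟩, rfl⟩
      rw [← he2 _ ⟨(s, t), rfl⟩]
      have : φ (s, t) = (z * s + y * t) • ((1 : R), (0 : R)) +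
          (-(x * s + z * t)) • ((0 : R), (1 : R)) := by
        simp [hφ, mf]
      rw [this, map_add, map_smul, map_smul]
      refine Submodule.add_mem _ (Submodule.smul_mem_smul ?_ (he1 _))
        (Submodule.smul_mem_smul ?_ (he1 _))
      · exact Ideal.add_mem _ (Ideal.mul_mem_right _ _ hz) (Ideal.mul_mem_right _ _ hy)
      · exact neg_mem (Ideal.add_mem _ (Ideal.mul_mem_right _ _ hx) (Ideal.mul_mem_right _ _ hz))
    have hbot : LinearMap.range φ = ⊥ :=
      Submodule.eq_bot_of_le_smul_of_le_jacobson_bot (maximalIdeal R) _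
        (IsNoetherian.noetherian _) hle (maximalIdeal_le_jacobson _)
    have : φ (1, 0) = 0 := by
      have h : φ (1, 0) ∈ LinearMap.range φ := ⟨_, rfl⟩
      rwa [hbot] at h
    simp [hφ, mf] at this
    exact hz0 this.1
  have hkr : LinearMap.ker φ.rangeRestrict = LinearMap.range φ := by
    rw [LinearMap.ker_rangeRestrict, hker]
  have hU := not_lt_of_periodic φ.rangeRestrict φ.surjective_rangeRestrict
    (LinearEquiv.ofEq _ _ hkr) hnp
  -- the map onto the ideal `(x, z)`
  let J : Ideal R := Ideal.ofList [x, z]
  have hxJ : x ∈ J := Ideal.subset_span (by simp)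
  have hzJ : z ∈ J := Ideal.subset_span (by simp)
  let g : (R × R) →ₗ[R] J :=
    { toFun := fun p => ⟨x * p.1 + z * p.2,
        J.add_mem (J.mul_mem_right _ hxJ) (J.mul_mem_right _ hzJ)⟩
      map_add' := fun p q => by ext; simp; ring
      map_smul' := fun c p => by ext; simp; ring }
  have hg : Function.Surjective g := by
    rintro ⟨w, hw⟩
    have : J = Ideal.span {x, z} := by
      simp only [J, Ideal.ofList]
      congr 1
      ext; simp
    rw [this, Ideal.mem_span_pair] at hw
    obtain ⟨a, b, rfl⟩ := hw
    exact ⟨(a, b), Subtype.ext (by simp [g]; ring)⟩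
  have hkg : LinearMap.ker g = LinearMap.range φ := by
    rw [← hker]
    ext ⟨a, b⟩
    simp only [LinearMap.mem_ker, hφ, mf, LinearMap.coe_mk, AddHom.coe_mk,
      Prod.mk_eq_zero, neg_eq_zero, g, Submodule.mk_eq_zero]
    constructor
    · intro h
      refine ⟨?_, h⟩
      apply mul_left_cancel₀ hz0
      linear_combination y * h - a * hrel
    · exact fun h => h.2
  have hJ : ∀ n, ¬ HasProjectiveDimensionLT (ModuleCat.of R J) (n + 1) := by
    refine not_lt_of_syzygy g hg fun n h => hU n ?_
    exact hasProjectiveDimensionLT_of_iso (LinearEquiv.ofEq _ _ hkg).toModuleIso (n + 1)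
  apply pd_eq_top_of
  refine not_lt_of_syzygy (J.mkQ) (Submodule.mkQ_surjective _) fun n h => hJ n ?_
  exact hasProjectiveDimensionLT_of_iso (LinearEquiv.ofEq _ _ (Submodule.ker_mkQ J)).toModuleIso
    (n + 1)

end Periodic

end Pool.Agent.Lib.MP_86e60f_al
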