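import Mathlib
import Pool.Agent.Lib.MP_86e60f_al.Defs

set_option autoImplicit false

open CategoryTheory Abelian RingTheory.Sequence IsLocalRing
open scoped Pointwise

namespace Pool.Agent.Lib.MP_86e60f_al

section RegSeq

variable {A : Type} [CommRing A]

/-- Elementwise form of a weakly regular sequence on `A / J`. -/
def RegSeq : Ideal A → List A → Prop
  | _, [] => True
  | J, r :: rs => (∀ a, r * a ∈ J → a ∈ J) ∧ RegSeq (J ⊔ Ideal.span {r}) rs

/-- `(A / J) / K (A / J) = A / (J + K)`. -/
noncomputable def quotQuot (J K : Ideal A) :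
    ((A ⧸ J) ⧸ (K • ⊤ : Submodule A (A ⧸ J))) ≃ₗ[A] A ⧸ (J ⊔ K) :=
  (Submodule.quotEquivOfEq _ (Submodule.map J.mkQ K) (by
    have : K = K • (⊤ : Submodule A A) := by simp
    conv_rhs => rw [this]
    rw [Submodule.map_smul'', Submodule.map_top, Submodule.range_mkQ])).trans
    (Submodule.quotientQuotientEquivQuotientSup J K)

lemma isSMulRegular_quot_iff (J : Ideal A) (r : A) :
    IsSMulRegular (A ⧸ J) r ↔ ∀ a, r * a ∈ J → a ∈ J := by
  rw [isSMulRegular_iff_right_eq_zero_of_smul]
  constructor
  · intro h a ha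
    have := h (Ideal.Quotient.mk J a) (by
      rw [← Ideal.Quotient.eq_zero_iff_mem] at ha
      rw [← ha, map_mul]; rfl)
    exact Ideal.Quotient.eq_zero_iff_mem.mp this
  · intro h m hm
    obtain ⟨a, rfl⟩ := Ideal.Quotient.mk_surjective m
    refine Ideal.Quotient.eq_zero_iff_mem.mpr (h a ?_)
    rw [← Ideal.Quotient.eq_zero_iff_mem, map_mul]
    exact hm

lemma isWeaklyRegular_iff_regSeq (rs : List A) :
    ∀ J : Ideal A, IsWeaklyRegular (A ⧸ J) rs ↔ RegSeq J rs := by
  induction rs with
  | nil => intro J; simp [RegSeq]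
  | cons r rs ih =>
    intro J
    rw [isWeaklyRegular_cons_iff, RegSeq, isSMulRegular_quot_iff, ← ih]
    refine and_congr_right fun _ => ?_
    have e : QuotSMulTop r (A ⧸ J) ≃ₗ[A] A ⧸ (J ⊔ Ideal.span {r}) :=
      (Submodule.quotEquivOfEq _ _ (Submodule.ideal_span_singleton_smul r ⊤).symm).trans
        (quotQuot J (Ideal.span {r}))
    exact e.isWeaklyRegular_congr rs

lemma isWeaklyRegular_self_iff (rs : List A) : IsWeaklyRegular A rs ↔ RegSeq ⊥ rs := by
  rw [← isWeaklyRegular_iff_regSeq]
  exact (Submodule.quotEquivOfEqBot (⊥ : Ideal A) rfl).symm.isWeaklyRegular_congr rs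

lemma regSeq_append (l₁ l₂ : List A) : ∀ J : Ideal A,
    RegSeq J (l₁ ++ l₂) ↔ RegSeq J l₁ ∧ RegSeq (J ⊔ Ideal.ofList l₁) l₂ := by
  induction l₁ with
  | nil => intro J; simp [RegSeq]
  | cons r l ih =>
    intro J
    simp only [List.cons_append, RegSeq, ih, Ideal.ofList_cons, sup_assoc, and_assoc]

lemma regSeq_map {B : Type} [CommRing B] (π : A →+* B) (hπ : Function.Surjective π)
    (l : List A) : ∀ J : Ideal B, RegSeq (J.comap π) l → RegSeq J (l.map π) := by
  induction l with
  | nil => intro J _; simp [RegSeq]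
  | cons r l ih =>
    intro J h
    refine ⟨?_, ih _ ?_⟩
    · intro b hb
      obtain ⟨a, rfl⟩ := hπ b
      exact h.1 a (by simpa [Ideal.mem_comap] using hb)
    · have : (J ⊔ Ideal.span {π r}).comap π = J.comap π ⊔ Ideal.span {r} := by
        have h1 : J ⊔ Ideal.span {π r} = (J.comap π ⊔ Ideal.span {r}).map π := by
          rw [Ideal.map_sup, Ideal.map_comap_of_surjective π hπ, Ideal.map_span,
            Set.image_singleton]
        rw [h1, Ideal.comap_map_of_surjective π hπ]
        refine sup_eq_left.mpr (le_sup_of_le_left (Ideal.comap_mono bot_le))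
      rw [this]
      exact h.2

lemma regSeq_vars {σ : Type} (v : σ → A) (hp : ∀ s : Set σ, (Ideal.span (v '' s)).IsPrime)
    (hn : ∀ (s : Set σ) (i : σ), v i ∈ Ideal.span (v '' s) → i ∈ s) (l : List σ) :
    ∀ s : Set σ, l.Nodup → (∀ i ∈ l, i ∉ s) → RegSeq (Ideal.span (v '' s)) (l.map v) := by
  induction l with
  | nil => intro s _ _; simp [RegSeq]
  | cons i l ih =>
    intro s hnd hs
    rw [List.nodup_cons] at hnd
    refine ⟨fun a ha => ?_, ?_⟩
    · rcases (hp s).mem_or_mem ha with h | h
      · exact absurd (hn s i h) (hs i List.mem_cons_self)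
      · exact h
    · have : Ideal.span (v '' s) ⊔ Ideal.span {v i} = Ideal.span (v '' (insert i s)) := by
        rw [Set.image_insert_eq, Ideal.span_insert, sup_comm]
      rw [this]
      refine ih _ hnd.2 fun j hj hjs => ?_
      rcases hjs with rfl | hjs
      · exact hnd.1 hj
      · exact hs j (List.mem_cons_of_mem _ hj) hjs

lemma ofList_map_eq {σ : Type} (v : σ → A) (l : List σ) :
    Ideal.ofList (l.map v) = Ideal.span (v '' {i | i ∈ l}) := by
  simp only [Ideal.ofList]
  congr 1
  ext a
  simp

end RegSeq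

section CM

variable {A : Type} [CommRing A] [IsLocalRing A]

lemma IsCMOfCodim.of_equiv {N N' : Type} [AddCommGroup N] [Module A N] [AddCommGroup N']
    [Module A N'] (e : N ≃ₗ[A] N') {t : ℕ} (h : IsCMOfCodim A N t) : IsCMOfCodim A N' t := by
  obtain ⟨h1, h2, h3⟩ := h
  refine ⟨e.symm.toEquiv.nontrivial, ?_, ?_⟩
  · rw [← Module.supportDim_eq_of_equiv e, ← h2]
    simp only [depth, e.isRegular_congr]
  · rw [← h3]
    simp only [cod, e.support_eq]

lemma depth_eq [IsNoetherianRing A] {N : Type} [AddCommGroup N] [Module A N] [Module.Finite A N]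
    (rs : List A) (hm : ∀ r ∈ rs, r ∈ maximalIdeal A) (hreg : IsRegular N rs)
    (hd : Module.supportDim A N = rs.length) :
    ((depth A N : ℕ∞) : WithBot ℕ∞) = Module.supportDim A N := by
  rw [hd]
  have : depth A N = rs.length := by
    apply le_antisymm
    · refine iSup₂_le fun l hl => ?_
      have h1 := Module.supportDim_add_length_eq_supportDim_of_isRegular l hl.2
      have := hl.2.quot_ofList_smul_nontrivial ⊤
      have h2 : (0 : WithBot ℕ∞) ≤ Module.supportDim A (N ⧸ Ideal.ofList l • (⊤ : Submodule A N)) := by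
        have := Module.supportDim_ne_bot_of_nontrivial A
          (N ⧸ Ideal.ofList l • (⊤ : Submodule A N))
        obtain ⟨a, ha⟩ := WithBot.ne_bot_iff_exists.mp this
        rw [← ha]
        exact WithBot.coe_le_coe.mpr zero_le
      have h3 : ((l.length : ℕ∞) : WithBot ℕ∞) ≤ ((rs.length : ℕ∞) : WithBot ℕ∞) := by
        have : (l.length : WithBot ℕ∞) ≤ (rs.length : WithBot ℕ∞) := by
          rw [← hd, ← h1]
          exact le_add_of_nonneg_left h2
        exact this
      exact WithBot.coe_le_coe.mp h3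
    · exact le_iSup₂_of_le (f := fun (l : List A) (_ : l ∈ {rs : List A |
        (∀ r ∈ rs, r ∈ maximalIdeal A) ∧ IsRegular N rs}) => (l.length : ℕ∞)) rs ⟨hm, hreg⟩ le_rfl
  rw [this]
  rfl

omit [IsLocalRing A] in
lemma cod_quot (I : Ideal A) [hI : I.IsPrime] : cod A (A ⧸ I) = I.height := by
  have hs : Module.support A (A ⧸ I) = PrimeSpectrum.zeroLocus I := by
    rw [Module.support_eq_zeroLocus, Ideal.annihilator_quotient]
  apply le_antisymm
  · refine iInf₂_le_of_le (⟨I, hI⟩ : PrimeSpectrum A) ?_ le_rfl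
    rw [hs]
    exact le_refl (I : Set A)
  · refine le_iInf₂ fun p hp => ?_
    rw [hs] at hp
    exact Ideal.height_mono hp

omit [IsLocalRing A] in
lemma height_eq [IsNoetherianRing A] (I : Ideal A) [hI : I.IsPrime] (rs : List A)
    (hreg : IsWeaklyRegular A rs) (hmin : I ∈ (Ideal.ofList rs).minimalPrimes) :
    I.height = rs.length := by
  classical
  apply le_antisymm
  · have h : Ideal.ofList rs = Ideal.span (rs.toFinset : Set A) := by
      simp only [Ideal.ofList]; congr 1; ext; simp
    rw [h] at hmin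
    refine (Ideal.height_le_card_of_mem_minimalPrimes_span_finset hmin).trans ?_
    exact_mod_cast List.toFinset_card_le rs
  · have hmem : ∀ r ∈ rs, r ∈ I := fun r hr => hmin.1.2 (Ideal.subset_span hr)
    have h1 := hreg.isRegular_of_isLocalization_of_mem (Localization.AtPrime I) I hmem
    have h2 := ringKrullDim_add_length_eq_ringKrullDim_of_isRegular _ h1
    rw [IsLocalization.AtPrime.ringKrullDim_eq_height I (Localization.AtPrime I),
      List.length_map] at h2
    have hnt : Nontrivial (Localization.AtPrime I ⧸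
        Ideal.ofList (rs.map (algebraMap A (Localization.AtPrime I)))) := by
      refine Ideal.Quotient.nontrivial_iff.mpr ?_
      have := h1.2
      intro h
      apply this
      rw [h]; simp
    have h3 := ringKrullDim_nonneg_of_nontrivial (R := Localization.AtPrime I ⧸
        Ideal.ofList (rs.map (algebraMap A (Localization.AtPrime I))))
    have h4 : ((rs.length : ℕ∞) : WithBot ℕ∞) ≤ (I.height : WithBot ℕ∞) := by
      rw [← h2]
      exact le_add_of_nonneg_left h3
    exact WithBot.coe_le_coe.mp h4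

end CM

end Pool.Agent.Lib.MP_86e60f_al
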