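import Mathlib
import Pool.Agent.Lib.MP_86e60f_al.Defs
import Pool.Agent.Lib.MP_86e60f_al.RegSeq
import Pool.Agent.Lib.MP_86e60f_al.Homological

set_option autoImplicit false

open CategoryTheory Abelian RingTheory.Sequence IsLocalRing
open scoped Pointwise TensorProduct

namespace Pool.Agent.Lib.MP_86e60f_al

variable {R : Type} [CommRing R]

/-- `Hom(R/I, R/Q) = R/I` when `(Q : z) = I` and `z ∈ I`, `I = Q + (z)`. -/
lemma hom_equiv (I Q : Ideal R) (z : R) (hzI : z ∈ I)
    (h1 : ∀ s, z * s ∈ Q ↔ s ∈ I) (h2 : I = Q ⊔ Ideal.span {z}) :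
    Nonempty (((R ⧸ I) →ₗ[R] (R ⧸ Q)) ≃ₗ[R] (R ⧸ I)) := by
  let m : (R ⧸ I) →ₗ[R] (R ⧸ Q) :=
    Submodule.liftQ I (Q.mkQ ∘ₗ LinearMap.lsmul R R z) (by
      intro s hs
      simp only [LinearMap.mem_ker, LinearMap.coe_comp, Function.comp_apply, LinearMap.lsmul_apply,
        smul_eq_mul, Submodule.mkQ_apply, Submodule.Quotient.mk_eq_zero]
      exact (h1 s).mpr hs)
  have hm : ∀ s : R, m (Submodule.Quotient.mk s) = Submodule.Quotient.mk (z * s) := fun s => rfl
  let ψ : (R ⧸ I) →ₗ[R] ((R ⧸ I) →ₗ[R] (R ⧸ Q)) :=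
    Submodule.liftQ I (LinearMap.toSpanSingleton R _ m) (by
      intro s hs
      simp only [LinearMap.mem_ker, LinearMap.toSpanSingleton_apply]
      refine Submodule.linearMap_qext _ ?_
      ext
      simp only [LinearMap.coe_comp, Function.comp_apply, Submodule.mkQ_apply,
        LinearMap.smul_apply, hm, mul_one, LinearMap.zero_comp, LinearMap.zero_apply]
      rw [← Submodule.Quotient.mk_smul, Submodule.Quotient.mk_eq_zero, smul_eq_mul, mul_comm]
      exact (h1 s).mpr hs)
  have hψ : ∀ s : R, ψ (Submodule.Quotient.mk s) = s • m := fun s => rfl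
  have hbij : Function.Bijective ψ := by
    constructor
    · rw [injective_iff_map_eq_zero]
      intro a ha
      obtain ⟨s, rfl⟩ := Submodule.Quotient.mk_surjective I a
      rw [hψ] at ha
      have := congrArg (fun g => g (Submodule.Quotient.mk 1)) ha
      simp only [LinearMap.smul_apply, hm, mul_one, LinearMap.zero_apply] at this
      rw [← Submodule.Quotient.mk_smul, Submodule.Quotient.mk_eq_zero, smul_eq_mul,
        mul_comm] at this
      exact (Submodule.Quotient.mk_eq_zero _).mpr ((h1 s).mp this)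
    · intro g
      obtain ⟨b, hb⟩ := Submodule.Quotient.mk_surjective Q (g (Submodule.Quotient.mk 1))
      have hzb : z * b ∈ Q := by
        rw [← Submodule.Quotient.mk_eq_zero, ← smul_eq_mul, Submodule.Quotient.mk_smul, hb,
          ← map_smul, ← Submodule.Quotient.mk_smul, smul_eq_mul, mul_one,
          (Submodule.Quotient.mk_eq_zero _).mpr hzI, map_zero]
      have hbI := (h1 b).mp hzb
      rw [h2] at hbI
      obtain ⟨q, hq, w, hw, rfl⟩ := Submodule.mem_sup.mp hbI
      obtain ⟨s, rfl⟩ := Ideal.mem_span_singleton'.mp hw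
      refine ⟨Submodule.Quotient.mk s, ?_⟩
      rw [hψ]
      refine Submodule.linearMap_qext _ ?_
      ext
      simp only [LinearMap.coe_comp, Function.comp_apply, Submodule.mkQ_apply,
        LinearMap.smul_apply, hm, mul_one]
      rw [← hb, ← Submodule.Quotient.mk_smul, Submodule.Quotient.eq]
      simpa using hq
  exact ⟨(LinearEquiv.ofBijective ψ hbij).symm⟩

/-- `R/I ⊗ R/I = R/I`. -/
noncomputable def tensorSelf (I : Ideal R) : ((R ⧸ I) ⊗[R] (R ⧸ I)) ≃ₗ[R] (R ⧸ I) :=
  ((TensorProduct.quotTensorEquivQuotSMul (R ⧸ I) I).trans (quotQuot I I)).trans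
    (Submodule.quotEquivOfEq _ _ (sup_idem I))

theorem abstract_main [IsLocalRing R] [IsDomain R] [IsNoetherianRing R]
    (x y z : R) (ws vs : List R)
    (hrel : x * y = z ^ 2) (hx0 : x ≠ 0) (hz0 : z ≠ 0)
    (hI : (Ideal.ofList (x :: z :: ws)).IsPrime) (hyI : y ∉ Ideal.ofList (x :: z :: ws))
    (hA : RegSeq ⊥ (x :: ws)) (hB : RegSeq ⊥ (z :: ws))
    (hC : RegSeq (Ideal.ofList [x, z]) ws)
    (hD : RegSeq (Ideal.ofList (x :: z :: ws)) (y :: vs))
    (hE : Ideal.ofList (x :: z :: ws) ⊔ Ideal.ofList (y :: vs) = maximalIdeal R)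
    (hF : ∀ s, z * s ∈ Ideal.ofList (x :: ws) → s ∈ Ideal.ofList (x :: z :: ws))
    (hF0 : ∀ s, z * s ∈ Ideal.ofList [x] → s ∈ Ideal.ofList [x, z]) :
    let M : ModuleCat.{0} R := ModuleCat.of R (R ⧸ Ideal.ofList (x :: z :: ws))
    IsCMOfCodim R M (ws.length + 1) ∧
      IsCMOfCodim R (M ⊗[R] Ext M (ModuleCat.of R R) (ws.length + 1)) (ws.length + 1) ∧
      projectiveDimension M = ⊤ ∧ Module.supportDim R M = (vs.length + 1 : ℕ) ∧
      ∀ q : PrimeSpectrum R, q.asIdeal ∈ associatedPrimes R M →
        projectiveDimension (M.localizedModule q.asIdeal.primeCompl) ≠ ⊤ := by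
  intro M
  set I := Ideal.ofList (x :: z :: ws) with hIdef
  have hIm : I ≤ maximalIdeal R := hE ▸ le_sup_left
  have hym : ∀ r ∈ y :: vs, r ∈ maximalIdeal R := fun r hr =>
    hE ▸ Ideal.mem_sup_right (Ideal.subset_span hr)
  have hmemI : ∀ r ∈ x :: z :: ws, r ∈ I := fun r hr => Ideal.subset_span hr
  have hx : x ∈ maximalIdeal R := hIm (hmemI x (by simp))
  have hz : z ∈ maximalIdeal R := hIm (hmemI z (by simp))
  have hy : y ∈ maximalIdeal R := hym y (by simp)
  have hws : ∀ r ∈ ws, r ∈ maximalIdeal R := fun r hr => hIm (hmemI r (by simp [hr]))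
  have hnt : Nontrivial (R ⧸ I) := Ideal.Quotient.nontrivial_iff.mpr hI.ne_top
  -- regular sequence on `M`
  have hregM : IsRegular (R ⧸ I) (y :: vs) :=
    IsRegular.of_isWeaklyRegular_of_mem_maximalIdeal _ hym
      ((isWeaklyRegular_iff_regSeq _ _).mpr hD)
  have hdim : Module.supportDim R (R ⧸ I) = ((y :: vs).length : ℕ) := by
    have h1 := Module.supportDim_add_length_eq_supportDim_of_isRegular _ hregM
    rw [Module.supportDim_eq_of_equiv (quotQuot I (Ideal.ofList (y :: vs))), hE,
      Module.supportDim_quotient_eq_ringKrullDim] at h1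
    have h0 : ringKrullDim (R ⧸ maximalIdeal R) = 0 :=
      ringKrullDim_eq_zero_of_field (ResidueField R)
    rw [h0, zero_add] at h1
    exact h1.symm
  have hQI : Ideal.ofList (x :: ws) ≤ I := Ideal.span_mono (by
    intro r hr
    simp only [List.mem_cons, Set.mem_ofPred_eq] at hr ⊢
    tauto)
  have hIQ : I = Ideal.ofList (x :: ws) ⊔ Ideal.span {z} := by
    rw [hIdef, Ideal.ofList_cons, Ideal.ofList_cons, Ideal.ofList_cons]
    ac_rfl
  have hxQ : x ∈ Ideal.ofList (x :: ws) := Ideal.subset_span (by simp)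
  have hmin : I ∈ (Ideal.ofList (x :: ws)).minimalPrimes := by
    refine ⟨⟨hI, hQI⟩, ?_⟩
    rintro q ⟨hq, hQq⟩ _
    rw [hIQ]
    refine sup_le hQq ?_
    rw [Ideal.span_singleton_le_iff_mem]
    refine hq.mem_of_pow_mem 2 ?_
    rw [← hrel]
    exact q.mul_mem_right _ (hQq hxQ)
  have hregA : IsWeaklyRegular R (x :: ws) := (isWeaklyRegular_self_iff _).mpr hA
  have hCM : IsCMOfCodim R (R ⧸ I) (ws.length + 1) := by
    refine ⟨hnt, depth_eq _ hym hregM hdim, ?_⟩
    rw [cod_quot I, height_eq I _ hregA hmin]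
    simp
  refine ⟨hCM, ?_, ?_, hdim, ?_⟩
  · -- the Ext module is isomorphic to `M`
    obtain ⟨-, ⟨e⟩⟩ := rees M (x :: ws) (by
      intro r hr
      have : Module.annihilator R (R ⧸ I) = I := Ideal.annihilator_quotient
      change r ∈ Module.annihilator R (R ⧸ I)
      rw [this]
      exact hQI (Ideal.subset_span hr)) (ModuleCat.of R R) hregA
    obtain ⟨e2⟩ := hom_equiv I (Ideal.ofList (x :: ws)) z (hmemI z (by simp)) (fun s =>
      ⟨hF s, fun hs => by
        rw [hIQ] at hs
        obtain ⟨q, hq, w, hw, rfl⟩ := Submodule.mem_sup.mp hs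
        obtain ⟨t, rfl⟩ := Ideal.mem_span_singleton'.mp hw
        have : z * (q + t * z) = z * q + (t * y) * x := by linear_combination (-t) * hrel
        rw [this]
        exact Ideal.add_mem _ (Ideal.mul_mem_left _ _ hq) (Ideal.mul_mem_left _ _ hxQ)⟩) hIQ
    have e3 : (R ⧸ (Ideal.ofList (x :: ws) • ⊤ : Submodule R R)) ≃ₗ[R]
        (R ⧸ Ideal.ofList (x :: ws)) := Submodule.quotEquivOfEq _ _ (by simp)
    have e4 : Ext M (ModuleCat.of R R) (ws.length + 1) ≃ₗ[R] (R ⧸ I) :=
      (e.trans (LinearEquiv.congrRight e3)).trans e2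
    exact hCM.of_equiv
      ((TensorProduct.congr (LinearEquiv.refl R (R ⧸ I)) e4).trans (tensorSelf I)).symm
  · -- infinite projective dimension
    have hN := pd_quot_eq_top x y z hx hy hz hz0 hrel (by
      intro a b hab
      have hb : b ∈ Ideal.ofList [x, z] := hF0 b (by
        rw [Ideal.ofList_singleton, Ideal.mem_span_singleton']
        exact ⟨-a, by linear_combination -hab⟩)
      rw [Ideal.ofList_cons, Ideal.ofList_singleton] at hb
      obtain ⟨p, hp, w, hw, rfl⟩ := Submodule.mem_sup.mp hb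
      obtain ⟨s, rfl⟩ := Ideal.mem_span_singleton'.mp hp
      obtain ⟨t, rfl⟩ := Ideal.mem_span_singleton'.mp hw
      refine ⟨-s, -t, ?_, by ring⟩
      apply mul_left_cancel₀ hx0
      linear_combination hab + t * hrel)
    have hxz : Ideal.ofList [x, z] ≤ I := Ideal.span_mono (by
      intro r hr
      simp only [List.mem_cons, Set.mem_ofPred_eq, List.not_mem_nil, or_false] at hr ⊢
      tauto)
    have : Nontrivial (R ⧸ Ideal.ofList [x, z]) :=
      Ideal.Quotient.nontrivial_iff.mpr (ne_top_of_le_ne_top hI.ne_top hxz)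
    have h1 := ModuleCat.projectiveDimension_quotient_eq_add_length_of_isWeaklyRegular
      (ModuleCat.of R (R ⧸ Ideal.ofList [x, z])) ws
      ((isWeaklyRegular_iff_regSeq _ _).mpr hC) hws
    have hI2 : Ideal.ofList [x, z] ⊔ Ideal.ofList ws = I := by
      rw [← Ideal.ofList_append]; rfl
    have e := (quotQuot (Ideal.ofList [x, z]) (Ideal.ofList ws)).trans
      (Submodule.quotEquivOfEq _ _ hI2)
    rw [← projectiveDimension_eq_of_iso e.toModuleIso, h1, hN]
    rfl
  · -- finite projective dimension at the associated prime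
    intro q hq
    have hqI : q.asIdeal = I := by
      have h := associatedPrimes.eq_singleton_of_isPrimary (R := R) hI.isPrimary
      change q.asIdeal ∈ associatedPrimes R (R ⧸ I) at hq
      rw [h, hI.radical] at hq
      exact hq
    have hyq : y ∈ q.asIdeal.primeCompl := by
      change y ∉ q.asIdeal
      rwa [hqI]
    set Q' := Ideal.ofList (z :: ws) with hQ'
    have hQ'I : Q' ≤ I := Ideal.span_mono (by
      intro r hr
      simp only [List.mem_cons, Set.mem_ofPred_eq] at hr ⊢
      tauto)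
    have hzw : ∀ r ∈ z :: ws, r ∈ maximalIdeal R := fun r hr => hIm (hQ'I (Ideal.subset_span hr))
    have h1 := ModuleCat.projectiveDimension_quotient_eq_add_length_of_isWeaklyRegular
      (ModuleCat.of R R) (z :: ws) ((isWeaklyRegular_self_iff _).mpr hB) hzw
    have e3 : (R ⧸ (Q' • ⊤ : Submodule R R)) ≃ₗ[R] (R ⧸ Q') :=
      Submodule.quotEquivOfEq _ _ (by simp)
    have h2 : HasProjectiveDimensionLE (ModuleCat.of R (R ⧸ Q')) (z :: ws).length := by
      rw [← projectiveDimension_le_iff, ← projectiveDimension_eq_of_iso e3.toModuleIso, h1,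
        ModuleCat.projectiveDimension_eq_zero_of_projective, zero_add]
    let g : (R ⧸ Q') →ₗ[R] (R ⧸ I) := Submodule.factor hQ'I
    have hg : Function.Surjective g := Submodule.factor_surjective hQ'I
    have hS := (LinearMap.shortExact_shortComplexKer hg).map_of_exact
      (ModuleCat.localizedModuleFunctor q.asIdeal.primeCompl)
    have h3 := ModuleCat.localizedModule_hasProjectiveDimensionLE (z :: ws).length
      q.asIdeal.primeCompl (ModuleCat.of R (R ⧸ Q'))
    have h4 : Limits.IsZero ((ModuleCat.of R (LinearMap.ker g)).localizedModule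
        q.asIdeal.primeCompl) := by
      rw [ModuleCat.isZero_iff_subsingleton]
      have : Subsingleton (LocalizedModule q.asIdeal.primeCompl (LinearMap.ker g)) := by
        rw [LocalizedModule.subsingleton_iff]
        rintro ⟨a, ha⟩
        refine ⟨y, hyq, Subtype.ext ?_⟩
        obtain ⟨s, rfl⟩ := Submodule.Quotient.mk_surjective Q' a
        have hs : s ∈ I := (Submodule.Quotient.mk_eq_zero _).mp ha
        change y • Submodule.Quotient.mk (p := Q') s = 0
        rw [← Submodule.Quotient.mk_smul, Submodule.Quotient.mk_eq_zero, smul_eq_mul]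
        rw [hIdef, Ideal.ofList_cons] at hs
        obtain ⟨p, hp, w, hw, rfl⟩ := Submodule.mem_sup.mp hs
        obtain ⟨t, rfl⟩ := Ideal.mem_span_singleton'.mp hp
        have : y * (t * x + w) = (t * z) * z + y * w := by linear_combination t * hrel
        rw [this]
        exact Ideal.add_mem _ (Ideal.mul_mem_left _ _ (Ideal.subset_span (by simp)))
          (Ideal.mul_mem_left _ _ hw)
      exact (equivShrink _).symm.subsingleton
    have h5 := h4.hasProjectiveDimensionLT_zero
    have h6 := hS.hasProjectiveDimensionLT_X₃ (z :: ws).length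
      (@hasProjectiveDimensionLT_of_ge _ _ _ _ 0 _ (Nat.zero_le _) h5) h3
    exact (projectiveDimension_ne_top_iff _).mpr ⟨_, h6⟩

end Pool.Agent.Lib.MP_86e60f_al
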