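import Mathlib
import Pool.Agent.Lib.MP_86e60f_al.Abstract

set_option autoImplicit false

open CategoryTheory Abelian RingTheory.Sequence IsLocalRing
open scoped Pointwise TensorProduct

namespace Pool.Agent.Lib.MP_86e60f_al

section FromVars

variable {S : Type} [CommRing S] {σ : Type}

theorem from_vars [IsRegularLocalRing S] (v : σ → S)
    (hp : ∀ s : Set σ, (Ideal.span (v '' s)).IsPrime)
    (hn : ∀ (s : Set σ) (i : σ), v i ∈ Ideal.span (v '' s) → i ∈ s)
    (hmax : Ideal.span (v '' Set.univ) = maximalIdeal S)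
    (x y z : σ) (W V : List σ) (hnd : (x :: z :: y :: (W ++ V)).Nodup)
    (hall : ∀ i, i ∈ x :: z :: y :: (W ++ V))
    (hf : (Ideal.span {v x * v y - v z ^ 2}).IsPrime) :
    ∃ (R : Type) (_ : CommRing R) (_ : IsLocalRing R) (_ : IsDomain R),
      IsLocalHypersurface R ∧ ∃ M : ModuleCat.{0} R, Module.Finite R M ∧
        IsCMOfCodim R M (W.length + 1) ∧
        IsCMOfCodim R (M ⊗[R] Ext M (ModuleCat.of R R) (W.length + 1)) (W.length + 1) ∧
        projectiveDimension M = ⊤ ∧ Module.supportDim R M = (V.length + 1 : ℕ) ∧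
        ∀ q : PrimeSpectrum R, q.asIdeal ∈ associatedPrimes R M →
          projectiveDimension (M.localizedModule q.asIdeal.primeCompl) ≠ ⊤ := by
  set f := v x * v y - v z ^ 2 with hfdef
  simp only [List.nodup_cons, List.mem_cons, List.mem_append, not_or, List.nodup_append] at hnd
  obtain ⟨⟨hxz, hxy, hxW, hxV⟩, ⟨hzy, hzW, hzV⟩, ⟨hyW, hyV⟩, hW, hV, hWV⟩ := hnd
  have hvm : ∀ i, v i ∈ maximalIdeal S := fun i => hmax ▸ Ideal.subset_span ⟨i, trivial, rfl⟩
  have hmem : ∀ (s : Set σ) (i : σ), i ∈ s → v i ∈ Ideal.span (v '' s) :=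
    fun s i hi => Ideal.subset_span ⟨i, hi, rfl⟩
  have hf2 : f ∈ maximalIdeal S ^ 2 := by
    rw [hfdef, pow_two (maximalIdeal S), pow_two]
    exact Ideal.sub_mem _ (Ideal.mul_mem_mul (hvm x) (hvm y)) (Ideal.mul_mem_mul (hvm z) (hvm z))
  have hfm : f ∈ maximalIdeal S := Ideal.pow_le_self (by norm_num) hf2
  -- `f` avoids the variable ideals that contain `x` and not `z`, or `z` and neither `x` nor `y`
  have hfx : ∀ s : Set σ, x ∈ s → z ∉ s → f ∉ Ideal.span (v '' s) := by
    intro s hx hz h
    have : v z ^ 2 ∈ Ideal.span (v '' s) := by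
      have h2 := Ideal.sub_mem _ (Ideal.mul_mem_right (v y) _ (hmem s x hx)) h
      simpa [hfdef] using h2
    exact hz (hn s z ((hp s).mem_of_pow_mem 2 this))
  have hfz : ∀ s : Set σ, z ∈ s → x ∉ s → y ∉ s → f ∉ Ideal.span (v '' s) := by
    intro s hz hx hy h
    have : v x * v y ∈ Ideal.span (v '' s) := by
      have h2 := Ideal.add_mem _ h (Ideal.pow_mem_of_mem _ (hmem s z hz) 2 (by norm_num))
      simpa [hfdef] using h2
    rcases (hp s).mem_or_mem this with h | h
    · exact hx (hn s x h)
    · exact hy (hn s y h)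
  have hfxz : ∀ s : Set σ, x ∈ s → z ∈ s → f ∈ Ideal.span (v '' s) := fun s hx hz =>
    Ideal.sub_mem _ (Ideal.mul_mem_right (v y) _ (hmem s x hx))
      (Ideal.pow_mem_of_mem _ (hmem s z hz) 2 (by norm_num))
  have hbot : Ideal.span (v '' (∅ : Set σ)) = ⊥ := by simp
  -- regular sequences modulo `f`
  have hperm : ∀ l : List σ, l.Nodup → f ∉ Ideal.span (v '' {i | i ∈ l}) →
      RegSeq (Ideal.span {f}) (l.map v) := by
    intro l hl hfl
    have h1 : RegSeq ⊥ (l.map v ++ [f]) := by
      rw [regSeq_append]
      refine ⟨hbot ▸ regSeq_vars v hp hn l ∅ hl (by simp), ?_, trivial⟩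
      rw [bot_sup_eq, ofList_map_eq]
      intro a ha
      exact ((hp _).mem_or_mem ha).resolve_left hfl
    have h2 := IsLocalRing.isWeaklyRegular_of_perm_of_subset_maximalIdeal
      ((isWeaklyRegular_self_iff _).mpr h1) (rs' := f :: l.map v)
      (List.perm_append_singleton f (l.map v)) (by
        intro r hr
        simp only [List.mem_append, List.mem_map, List.mem_singleton] at hr
        rcases hr with ⟨i, _, rfl⟩ | rfl
        · exact hvm i
        · exact hfm)
    have h3 := ((isWeaklyRegular_self_iff _).mp h2).2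
    rwa [bot_sup_eq] at h3
  let R := S ⧸ Ideal.span {f}
  let π : S →+* R := Ideal.Quotient.mk _
  have hπ : Function.Surjective π := Ideal.Quotient.mk_surjective
  have hdom : IsDomain R := Ideal.Quotient.isDomain _
  have hloc : IsLocalRing R := IsLocalRing.of_surjective' π hπ
  have hker : (⊥ : Ideal R).comap π = Ideal.span {f} := Ideal.mk_ker
  have hcomap : ∀ l : List σ, (Ideal.ofList ((l.map v).map π)).comap π =
      Ideal.span (v '' {i | i ∈ l}) ⊔ Ideal.span {f} := by
    intro l
    rw [← Ideal.map_ofList, Ideal.comap_map_of_surjective π hπ, hker, ofList_map_eq]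
  have hcomap' : ∀ l : List σ, x ∈ l → z ∈ l → (Ideal.ofList ((l.map v).map π)).comap π =
      Ideal.span (v '' {i | i ∈ l}) := by
    intro l hx hz
    rw [hcomap, sup_eq_left, Ideal.span_singleton_le_iff_mem]
    exact hfxz _ hx hz
  have hF : ∀ l : List σ, z ∉ l → z ≠ x → ∀ s : R, π (v z) * s ∈ Ideal.ofList (((x :: l).map v).map π) →
      s ∈ Ideal.ofList (((x :: z :: l).map v).map π) := by
    intro l hzl hzx s hs
    obtain ⟨b, rfl⟩ := hπ s
    rw [← Ideal.mem_comap, hcomap' _ (by simp) (by simp)]
    rw [← map_mul, ← Ideal.mem_comap, hcomap] at hs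
    obtain ⟨u, hu, w, hw, huw⟩ := Submodule.mem_sup.mp hs
    obtain ⟨t, rfl⟩ := Ideal.mem_span_singleton'.mp hw
    have h1 : v z * (b + t * v z) ∈ Ideal.span (v '' {i | i ∈ x :: l}) := by
      have : v z * (b + t * v z) = u + (t * v y) * v x := by
        rw [hfdef] at huw
        linear_combination -huw
      rw [this]
      exact Ideal.add_mem _ hu (Ideal.mul_mem_left _ _ (hmem _ x (by simp)))
    have h2 : b + t * v z ∈ Ideal.span (v '' {i | i ∈ x :: l}) :=
      ((hp _).mem_or_mem h1).resolve_left fun h => by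
        have := hn _ _ h
        simp only [List.mem_cons, Set.mem_ofPred_eq] at this
        tauto
    have h3 : b + t * v z ∈ Ideal.span (v '' {i | i ∈ x :: z :: l}) :=
      Ideal.span_mono (Set.image_mono (by
        intro i hi
        simp only [List.mem_cons, Set.mem_ofPred_eq] at hi ⊢
        tauto)) h2
    have h4 := Ideal.sub_mem _ h3 (Ideal.mul_mem_left _ t
      (hmem {i | i ∈ x :: z :: l} z (by simp)))
    simpa using h4
  have hA : RegSeq (⊥ : Ideal R) (((x :: W).map v).map π) := by
    refine regSeq_map π hπ _ _ ?_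
    rw [hker]
    refine hperm _ (by simp [hxW, hW]) (hfx _ (by simp) ?_)
    simp only [List.mem_cons, Set.mem_ofPred_eq, not_or]
    exact ⟨fun h => hxz h.symm, hzW⟩
  have hB : RegSeq (⊥ : Ideal R) (((z :: W).map v).map π) := by
    refine regSeq_map π hπ _ _ ?_
    rw [hker]
    refine hperm _ (by simp [hzW, hW]) (hfz _ (by simp) ?_ ?_)
    · simp only [List.mem_cons, Set.mem_ofPred_eq, not_or]
      exact ⟨hxz, hxW⟩
    · simp only [List.mem_cons, Set.mem_ofPred_eq, not_or]
      exact ⟨fun h => hzy h.symm, hyW⟩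
  have hnz : ∀ a : R, ∀ l, RegSeq (⊥ : Ideal R) (a :: l) → a ≠ 0 := by
    rintro a l h rfl
    have := h.1 1 (by simp)
    simp at this
  have hmain := abstract_main (R := R) (π (v x)) (π (v y)) (π (v z)) ((W.map v).map π)
    ((V.map v).map π)
    (by
      rw [← map_mul, ← map_pow, ← sub_eq_zero, ← map_sub]
      exact Ideal.Quotient.eq_zero_iff_mem.mpr (Ideal.mem_span_singleton_self _))
    (hnz _ _ hA) (hnz _ _ hB)
    (by
      have h := hcomap' (x :: z :: W) (by simp) (by simp)
      have h2 : (Ideal.ofList (((x :: z :: W).map v).map π)) =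
          (Ideal.span (v '' {i | i ∈ x :: z :: W})).map π := by
        rw [← h, Ideal.map_comap_of_surjective π hπ]
      change (Ideal.ofList (((x :: z :: W).map v).map π)).IsPrime
      rw [h2]
      have := hp {i | i ∈ x :: z :: W}
      refine Ideal.map_isPrime_of_surjective hπ ?_
      change (⊥ : Ideal R).comap π ≤ _
      rw [hker, Ideal.span_singleton_le_iff_mem]
      exact hfxz _ (by simp) (by simp))
    (by
      change π (v y) ∉ (Ideal.ofList (((x :: z :: W).map v).map π))
      rw [← Ideal.mem_comap, hcomap' _ (by simp) (by simp)]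
      intro h
      have := hn _ _ h
      simp only [List.mem_cons, Set.mem_ofPred_eq] at this
      rcases this with h | h | h
      · exact hxy h.symm
      · exact hzy h.symm
      · exact hyW h)
    hA hB
    (by
      refine regSeq_map π hπ _ _ ?_
      change RegSeq ((Ideal.ofList (([x, z].map v).map π)).comap π) _
      rw [hcomap' _ (by simp) (by simp)]
      refine regSeq_vars v hp hn W _ hW fun i hi h => ?_
      simp only [List.mem_cons, List.not_mem_nil, or_false, Set.mem_ofPred_eq] at h
      rcases h with rfl | rfl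
      · exact hxW hi
      · exact hzW hi)
    (by
      change RegSeq (Ideal.ofList (((x :: z :: W).map v).map π)) (((y :: V).map v).map π)
      refine regSeq_map π hπ _ _ ?_
      rw [hcomap' _ (by simp) (by simp)]
      refine regSeq_vars v hp hn _ _ (by simp [hyV, hV]) fun i hi h => ?_
      simp only [List.mem_cons, Set.mem_ofPred_eq] at h hi
      rcases hi with rfl | hi
      · rcases h with h | h | h
        · exact hxy h.symm
        · exact hzy h.symm
        · exact hyW h
      · rcases h with rfl | rfl | h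
        · exact hxV hi
        · exact hzV hi
        · exact hWV _ h _ hi rfl)
    (by
      change Ideal.ofList (((x :: z :: W).map v).map π) ⊔
        Ideal.ofList (((y :: V).map v).map π) = _
      rw [← Ideal.ofList_append, ← List.map_append, ← List.map_append, ← Ideal.map_ofList,
        ofList_map_eq]
      have : {i | i ∈ (x :: z :: W) ++ (y :: V)} = Set.univ := by
        ext i
        have := hall i
        simp only [List.mem_cons, List.mem_append, Set.mem_ofPred_eq, Set.mem_univ,
          iff_true] at this ⊢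
        tauto
      rw [this, hmax]
      exact IsLocalRing.map_maximalIdeal_of_surjective π hπ)
    (hF W hzW (Ne.symm hxz)) (hF [] (by simp) (Ne.symm hxz))
  have hlW : ((W.map v).map π).length = W.length := by simp
  have hlV : ((V.map v).map π).length = V.length := by simp
  rw [hlW, hlV] at hmain
  refine ⟨R, inferInstance, hloc, hdom, ⟨S, inferInstance, inferInstance, f, hf2, ?_,
    ⟨RingEquiv.refl _⟩⟩, _, ?_, hmain⟩
  · refine IsRegular.of_isWeaklyRegular_of_mem_maximalIdeal _ (by simpa using hfm) ?_
    rw [isWeaklyRegular_self_iff]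
    refine ⟨fun a ha => ?_, trivial⟩
    rw [← hbot] at ha ⊢
    refine ((hp ∅).mem_or_mem ha).resolve_left fun h => ?_
    exact hfx {x} rfl (by simpa using Ne.symm hxz)
      (Ideal.span_mono (Set.image_mono (Set.empty_subset _)) h)
  · exact inferInstanceAs (Module.Finite R (R ⧸ _))

end FromVars

section Poly

open MvPolynomial

variable {σ : Type} (k : Type) [Field k]

open Classical in
lemma span_X_eq_ker (s : Set σ) :
    Ideal.span (X '' s : Set (MvPolynomial σ k)) =
      RingHom.ker (aeval (R := k) (fun i => if i ∈ s then (0 : MvPolynomial σ k) else X i)) := by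
  apply le_antisymm
  · rw [Ideal.span_le]
    rintro _ ⟨i, hi, rfl⟩
    simp [RingHom.mem_ker, hi]
  · intro p hp
    have key : ∀ q : MvPolynomial σ k,
        q - aeval (R := k) (fun i => if i ∈ s then (0 : MvPolynomial σ k) else X i) q ∈
          Ideal.span (X '' s : Set (MvPolynomial σ k)) := by
      intro q
      induction q using MvPolynomial.induction_on with
      | C a => simp
      | add p q hp hq =>
        rw [map_add, add_sub_add_comm]
        exact Ideal.add_mem _ hp hq
      | mul_X p i hp =>
        rw [map_mul, aeval_X]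
        split_ifs with hi
        · rw [mul_zero, sub_zero]
          exact Ideal.mul_mem_left _ _ (Ideal.subset_span ⟨i, hi, rfl⟩)
        · rw [← sub_mul]
          exact Ideal.mul_mem_right _ _ hp
    have := key p
    rwa [RingHom.mem_ker.mp hp, sub_zero] at this

lemma span_X_isPrime (s : Set σ) : (Ideal.span (X '' s : Set (MvPolynomial σ k))).IsPrime := by
  rw [span_X_eq_ker]
  exact RingHom.ker_isPrime _

lemma mem_of_X_mem (s : Set σ) (i : σ) (h : X i ∈ Ideal.span (X '' s : Set (MvPolynomial σ k))) :
    i ∈ s := by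
  by_contra hi
  rw [span_X_eq_ker, RingHom.mem_ker] at h
  simp [hi] at h

lemma prime_quadric (x y z : σ) (hxy : x ≠ y) (hxz : x ≠ z) (hyz : y ≠ z) :
    Prime (X x * X y - X z ^ 2 : MvPolynomial σ k) := by
  classical
  have h := irreducible_mul_X_add (X y : MvPolynomial σ k) (-(X z ^ 2)) x (X_ne_zero y)
    (by simp [vars_X, hxy]) (by
      rw [vars_neg]
      intro h
      have := vars_pow _ _ h
      simp [vars_X, hxz] at this) (by
      have hy : Prime (X y : MvPolynomial σ k) := X_prime
      refine (hy.irreducible.isRelPrime_iff_not_dvd).mpr ?_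
      intro h
      have h2 := hy.dvd_of_dvd_pow (dvd_neg.mp h)
      exact hyz (X_dvd_X.mp h2))
  have h2 : (X y * X x + -(X z ^ 2) : MvPolynomial σ k) = X x * X y - X z ^ 2 := by ring
  rw [h2] at h
  exact h.prime

theorem concrete [Finite σ] (x y z : σ) (W V : List σ) (hnd : (x :: z :: y :: (W ++ V)).Nodup)
    (hall : ∀ i, i ∈ x :: z :: y :: (W ++ V)) :
    ∃ (R : Type) (_ : CommRing R) (_ : IsLocalRing R) (_ : IsDomain R),
      IsLocalHypersurface R ∧ ∃ M : ModuleCat.{0} R, Module.Finite R M ∧
        IsCMOfCodim R M (W.length + 1) ∧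
        IsCMOfCodim R (M ⊗[R] Ext M (ModuleCat.of R R) (W.length + 1)) (W.length + 1) ∧
        projectiveDimension M = ⊤ ∧ Module.supportDim R M = (V.length + 1 : ℕ) ∧
        ∀ q : PrimeSpectrum R, q.asIdeal ∈ associatedPrimes R M →
          projectiveDimension (M.localizedModule q.asIdeal.primeCompl) ≠ ⊤ := by
  let P := MvPolynomial σ ℚ
  let m : Ideal P := Ideal.span (X '' Set.univ)
  have hm : m.IsPrime := span_X_isPrime ℚ _
  let S := Localization.AtPrime m
  let v : σ → S := fun i => algebraMap P S (X i)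
  have hspan : ∀ s : Set σ, Ideal.span (v '' s) = (Ideal.span (X '' s)).map (algebraMap P S) := by
    intro s
    rw [Ideal.map_span, Set.image_image]
  have hdisj : ∀ J : Ideal P, J ≤ m → Disjoint (m.primeCompl : Set P) J := fun J hJ =>
    Set.disjoint_left.mpr fun a ha haJ => ha (hJ haJ)
  have hle : ∀ s : Set σ, Ideal.span (X '' s : Set P) ≤ m := fun s =>
    Ideal.span_mono (Set.image_mono (Set.subset_univ s))
  have hnd' := hnd
  simp only [List.nodup_cons, List.mem_cons, List.mem_append, not_or] at hnd'
  refine from_vars v (fun s => ?_) (fun s i h => ?_) ?_ x y z W V hnd hall ?_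
  · rw [hspan]
    exact IsLocalization.isPrime_of_isPrime_disjoint m.primeCompl S _ (span_X_isPrime ℚ s)
      (hdisj _ (hle s))
  · rw [hspan] at h
    have h2 := IsLocalization.under_map_of_isPrime_disjoint m.primeCompl S (span_X_isPrime ℚ s)
      (hdisj _ (hle s))
    refine mem_of_X_mem ℚ s i ?_
    rw [← h2]
    exact h
  · rw [hspan]
    exact Localization.AtPrime.map_eq_maximalIdeal
  · have hq := prime_quadric ℚ x y z hnd'.1.2.1 hnd'.1.1 (Ne.symm hnd'.2.1.1)
    have h1 : Ideal.span {v x * v y - v z ^ 2} =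
        (Ideal.span {(X x * X y - X z ^ 2 : P)}).map (algebraMap P S) := by
      rw [Ideal.map_span, Set.image_singleton]
      simp [v]
    rw [h1]
    refine IsLocalization.isPrime_of_isPrime_disjoint m.primeCompl S _
      ((Ideal.span_singleton_prime hq.ne_zero).mpr hq) (hdisj _ ?_)
    rw [Ideal.span_singleton_le_iff_mem]
    exact Ideal.sub_mem _ (Ideal.mul_mem_right _ _ (Ideal.subset_span ⟨x, trivial, rfl⟩))
      (Ideal.pow_mem_of_mem m (Ideal.subset_span ⟨z, trivial, rfl⟩) 2 (by norm_num))

end Poly

end Pool.Agent.Lib.MP_86e60f_al
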